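import Pool.Agent.Helper6.BA.ResGlue

/-!
# The successor step is the Mathias forcing (BA-R6)
-/

set_option autoImplicit false
set_option linter.unusedSectionVars false

namespace Pool.Agent.Helper94.BA

open Pool.Agent.Helper33.HM

universe u

/-- Finitely many dense requirements can be met at once. -/
theorem h6_fin {P : Type u} [Preorder P] {ι : Type*} (S : Finset ι) (A : ι → Set P) (x : P)
    (hx : ∀ j ∈ S, x ∈ RO.gen (A j)) : ∃ r, r ≤ x ∧ ∀ j ∈ S, ∃ a ∈ A j, r ≤ a := by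
  classical
  induction S using Finset.induction_on with
  | empty => exact ⟨x, le_rfl, fun j hj => absurd hj (Finset.notMem_empty j)⟩
  | insert j S hj ih =>
    obtain ⟨r, hr, hr'⟩ := ih fun k hk => hx k (Finset.mem_insert_of_mem hk)
    obtain ⟨t, ht, a, ha, hta⟩ := hx j (Finset.mem_insert_self j S) r hr
    refine ⟨t, ht.trans hr, fun k hk => ?_⟩
    rcases Finset.mem_insert.1 hk with rfl | hk
    · exact ⟨a, ha, hta⟩
    · obtain ⟨b, hb, hrb⟩ := hr' k hk
      exact ⟨b, hb, ht.trans hrb⟩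

section Iter

variable {P₀ I : Type u} [Preorder P₀] [LinearOrder I]
variable {F G : I → Set (Name P₀ I)} {i ℓ : I}

theorem h6_zG_mem {p : Cnd F ℓ} {p' : Raw P₀ I} {s : List Bool} {m : ℕ}
    {f : ℕ → ℕ → ℕ → Raw P₀ I} {v : ℕ → ℕ → ℕ → Bool} (he : p.1.Entry i p' s m f v) {n : ℕ}
    (hn : n < s.length) (hs : s[n] = true) : p ∈ (zG i n : RO (Cnd F ℓ)) :=
  fun q hq => ⟨q, le_rfl, p, ⟨p', s, m, f, v, he, hn, hs⟩, hq⟩

theorem h6_zG_ext {p : Cnd F ℓ} {n : ℕ} (hp : p ∈ (zG i n : RO (Cnd F ℓ))) :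
    ∃ r : Cnd F ℓ, r ≤ p ∧ ∃ (p' : Raw P₀ I) (t : List Bool) (m : ℕ)
      (f : ℕ → ℕ → ℕ → Raw P₀ I) (v : ℕ → ℕ → ℕ → Bool), r.1.Entry i p' t m f v ∧
        ∃ h : n < t.length, t[n] = true := by
  obtain ⟨r, hr, a, ⟨p', s, m, f, v, he, hn, hs⟩, hra⟩ := hp p le_rfl
  obtain ⟨q', t, m', g, w, he', hst, _⟩ := (Raw.Le_iff.1 hra).2 i p' s m f v he
  have hnt : n < t.length := hn.trans_le hst.length_le
  refine ⟨r, hr, q', t, m', g, w, he', hnt, ?_⟩
  rw [← hs]
  exact (List.IsPrefix.getElem hst hn).symm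

theorem h6_zG_not {p : Cnd F ℓ} {p' : Raw P₀ I} {s : List Bool} {m : ℕ}
    {f : ℕ → ℕ → ℕ → Raw P₀ I} {v : ℕ → ℕ → ℕ → Bool} (he : p.1.Entry i p' s m f v) {n : ℕ}
    (hn : n < s.length) (hs : s[n] = false) : p ∈ (zG i n : RO (Cnd F ℓ))ᶜ := by
  intro q hq hqz
  obtain ⟨r, hr, p2, t, m2, f2, v2, he2, hnt, ht⟩ := h6_zG_ext hqz
  obtain ⟨q', t', m', g, w, he', hst, _⟩ := (Raw.Le_iff.1 (hr.trans hq)).2 i p' s m f v he
  obtain ⟨_, rfl, _⟩ := Raw.Entry.unique r.2.1.wf he2 he'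
  have h1 := List.IsPrefix.getElem hst hn
  rw [hs] at h1
  rw [← h1] at ht
  exact Bool.false_ne_true ht

theorem h6_mem_mcond {z : ℕ → RO (Cnd F ℓ)} {s : List Bool} {y : ℕ → RO (Cnd F ℓ)}
    {p : Cnd F ℓ} : p ∈ mcond z s y ↔
      (∀ (n : ℕ) (h : n < s.length), p ∈ (if s[n] then z n else (z n)ᶜ : RO (Cnd F ℓ))) ∧
        ∀ n, s.length ≤ n → p ∈ (y n ⇨ (z n)ᶜ : RO (Cnd F ℓ)) := by
  rw [mcond, RO.mem_inf, cyl, RO.mem_iInf, RO.mem_iInf]
  refine and_congr (forall_congr' fun n => RO.mem_iInf) (forall_congr' fun n => RO.mem_iInf)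

/-- Extending the raw condition at the top. -/
theorem h6_le_cons {p q : Raw P₀ I} (h : Raw.Le p q) (j : I) (s : List Bool) (m : ℕ)
    (f : ℕ → ℕ → ℕ → Raw P₀ I) (v : ℕ → ℕ → ℕ → Bool) : Raw.Le p (Raw.cons q j s m f v) := by
  rw [Raw.Le_iff] at h ⊢
  refine ⟨h.1, fun k p' s' m' f' v' he => ?_⟩
  obtain ⟨q', t, m2, g, w, h1, h2⟩ := h.2 k p' s' m' f' v' he
  exact ⟨q', t, m2, g, w, Or.inr h1, h2⟩

/-- Either all indices are less than `i`, or there is a top entry at `i`. -/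
theorem h6_cases (hcov : ∀ j < ℓ, j ≤ i) (p : Cnd F ℓ) : p.1.lt i ∨
    ∃ (p' : Raw P₀ I) (s : List Bool) (m : ℕ) (f : ℕ → ℕ → ℕ → Raw P₀ I)
      (v : ℕ → ℕ → ℕ → Bool), p.1 = Raw.cons p' i s m f v := by
  obtain ⟨p, hv, hl⟩ := p
  cases p with
  | nil a => exact Or.inl trivial
  | cons p' j s m f v =>
    rcases lt_or_eq_of_le (hcov j hl) with hj | rfl
    · exact Or.inl hj
    · exact Or.inr ⟨p', s, m, f, v, rfl⟩

/-- The union of finitely many names of the ideal. -/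
theorem h6_join {J : Set (ℕ → RO (Cnd G i))} (hsup : ∀ y ∈ J, ∀ y' ∈ J, y ⊔ y' ∈ J)
    (hne : J.Nonempty) (g : ℕ → ℕ → RO (Cnd G i)) (m : ℕ) (hg : ∀ l < m, g l ∈ J) :
    ∃ y ∈ J, ∀ l < m, g l ≤ y := by
  induction m with
  | zero =>
    obtain ⟨y, hy⟩ := hne
    exact ⟨y, hy, fun l hl => absurd hl (Nat.not_lt_zero l)⟩
  | succ m ih =>
    obtain ⟨y, hy, hy'⟩ := ih fun l hl => hg l (hl.trans (Nat.lt_succ_self m))
    refine ⟨y ⊔ g m, hsup y hy _ (hg m (Nat.lt_succ_self m)), fun l hl => ?_⟩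
    rcases Nat.lt_succ_iff_lt_or_eq.1 hl with hl | rfl
    · exact (hy' l hl).trans le_sup_left
    · exact le_sup_right

/-- A condition below a restriction in the generated sense can be refined. -/
theorem h6_refine (h : Agr G F i) (hi : i ≤ ℓ) {q : Cnd F ℓ} {P' : Cnd G i}
    (hq : q ∈ (embR h (RO.gen {P'}) : RO (Cnd F ℓ))) :
    ∃ r : Cnd F ℓ, r ≤ q ∧ resTo h r ≤ P' := by
  have h1 := (mem_embR h hi).1 hq
  obtain ⟨r', hr', a, ha, hra⟩ := h1 _ le_rfl
  rw [Set.mem_singleton_iff] at ha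
  subst ha
  obtain ⟨r, hr, hrr⟩ := exists_glue h hi q r' hr'
  exact ⟨r, hr, by rw [hrr]; exact hra⟩

theorem h6_gen_ne_bot {P : Type u} [Preorder P] (p : P) : RO.gen ({p} : Set P) ≠ ⊥ :=
  RO.ne_bot_iff.2 ⟨p, fun q hq => ⟨q, le_rfl, p, rfl, hq⟩⟩

/-- The successor step is the Mathias forcing. -/
theorem mstep (h : Agr G F i) (hi : i < ℓ) (hcov : ∀ j < ℓ, j ≤ i)
    (hn : ∀ Y ∈ F i, ∀ n k, (Y.1 n k).Valid F ∧ (Y.1 n k).lt i)
    (hsup : ∀ y ∈ idealOf G i (F i), ∀ y' ∈ idealOf G i (F i), y ⊔ y' ∈ idealOf G i (F i))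
    (hne : (idealOf G i (F i)).Nonempty) :
    MStep (embR h : RO (Cnd G i) → RO (Cnd F ℓ)) (idealOf G i (F i)) (zG i) where
  pos := by
    rintro a ha s _ ⟨Y, hY, rfl⟩
    obtain ⟨p0, hp0⟩ := RO.ne_bot_iff.1 ha
    have hp0F : p0.1.Valid F := p0.2.1.congr p0.2.2 fun j hj => (h j hj).subset
    let p : Cnd F ℓ := ⟨Raw.cons p0.1 i s 1 (fun _ => Y.1) (fun _ => Y.2),
      ⟨hp0F, p0.2.2, fun _ n k => hn Y hY n k, fun _ _ => hY⟩, hi⟩
    have he : p.1.Entry i p0.1 s 1 (fun _ => Y.1) (fun _ => Y.2) :=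
      Or.inl ⟨rfl, rfl, rfl, rfl, rfl, rfl⟩
    refine RO.ne_bot_iff.2 ⟨p, RO.mem_inf.2 ⟨?_, h6_mem_mcond.2 ⟨?_, ?_⟩⟩⟩
    · rw [mem_embR h hi.le]
      have : resTo h p = p0 := by
        refine Subtype.ext ?_
        show (Raw.cons p0.1 i s 1 (fun _ => Y.1) (fun _ => Y.2)).res i = p0.1
        rw [Raw.res, if_neg (lt_irrefl i), Raw.h6_res_of_lt p0.2.2]
      rw [this]
      exact hp0
    · intro n hns
      by_cases hs : s[n] = true
      · rw [if_pos hs]
        exact h6_zG_mem he hns hs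
      · rw [if_neg hs]
        exact h6_zG_not he hns (by simpa using hs)
    · intro n hns q hq hqy r hr hrz
      obtain ⟨r', hr', p2, t, m2, f2, v2, he2, hnt, ht⟩ := h6_zG_ext hrz
      obtain ⟨q', t', m', g, w, he', hst, _, hnew⟩ :=
        (Raw.Le_iff.1 ((hr'.trans hr).trans hq)).2 i _ _ _ _ _ he
      obtain ⟨_, rfl, _⟩ := Raw.Entry.unique r'.2.1.wf he2 he'
      obtain ⟨k, hk, hk'⟩ := hnew n hnt hns ht 0 Nat.zero_lt_one
      have h1 : resTo h r' ∈ valN Y n :=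
        RO.mem_lower (resTo_mono h (hr'.trans hr)) ((mem_embR h hi.le).1 hqy)
      have hYG : (Y.1 n k).Valid G :=
        (hn Y hY n k).1.congr (hn Y hY n k).2 fun j hj => (h j hj).symm.subset
      refine h1 (resTo h r') le_rfl ?_
      intro x hx
      refine ⟨x, le_rfl, ⟨Y.1 n k, hYG, (hn Y hY n k).2⟩, ⟨k, hk, rfl⟩, hx.trans ?_⟩
      show Raw.Le (Y.1 n k) (r'.1.res i)
      rw [← Raw.h6_entry_eq_res r'.1 r'.2.1.wf he']
      exact hk'
  dense := by
    intro b hb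
    obtain ⟨p, hp⟩ := RO.ne_bot_iff.1 hb
    rcases h6_cases hcov p with hpi | ⟨p', s, m, f, v, hpe⟩
    · obtain ⟨y, hy⟩ := hne
      refine ⟨RO.gen {resTo h p}, h6_gen_ne_bot _, [], y, hy, ?_⟩
      intro q hq
      refine RO.mem_reg fun q1 hq1 => ?_
      obtain ⟨r, hr, hr'⟩ := h6_refine h hi.le (RO.mem_lower hq1 hq.1)
      refine ⟨r, hr, RO.mem_lower ?_ hp⟩
      show Raw.Le p.1 r.1
      have h1 : Raw.Le (p.1.res i) (r.1.res i) := hr'
      rw [Raw.h6_res_of_lt hpi] at h1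
      have h2 := Raw.h6_le_res r.2.1.wf i
      exact Raw.Le_trans p.2.1.wf (Raw.res_facts r.1 r.2.1.wf i).1 r.2.1.wf h1 h2
    · obtain ⟨hv1, hv2, hv3, hv4⟩ : (Raw.cons p' i s m f v).Valid F := hpe ▸ p.2.1
      obtain ⟨y, hy, hy'⟩ := h6_join hsup hne (fun l => valN (f l, v l)) m
        (fun l hl => ⟨(f l, v l), hv4 l hl, rfl⟩)
      have hres : (resTo h p).1 = p' := by
        show p.1.res i = p'
        rw [hpe, Raw.res, if_neg (lt_irrefl i), Raw.h6_res_of_lt hv2]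
      refine ⟨RO.gen {resTo h p}, h6_gen_ne_bot _, s, y, hy, ?_⟩
      intro q hq
      refine RO.mem_reg fun q1 hq1 => ?_
      have hq1' := RO.mem_inf.1 (RO.mem_lower hq1 hq)
      obtain ⟨q2, hq2, hq2'⟩ := h6_refine h hi.le hq1'.1
      -- a stem of length at least that of `s`
      obtain ⟨q3, hq3, q3', t, m3, f3, v3, hq3e, hlen⟩ : ∃ q3 : Cnd F ℓ, q3 ≤ q2 ∧
          ∃ (q3' : Raw P₀ I) (t : List Bool) (m3 : ℕ) (f3 : ℕ → ℕ → ℕ → Raw P₀ I)
            (v3 : ℕ → ℕ → ℕ → Bool), q3.1 = Raw.cons q3' i t m3 f3 v3 ∧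
              s.length ≤ t.length := by
        rcases h6_cases hcov q2 with h2 | ⟨q2', t, m3, f3, v3, h2⟩
        · refine ⟨⟨Raw.cons q2.1 i s 0 (fun _ _ _ => q2.1) (fun _ _ _ => true),
            ⟨q2.2.1, h2, fun _ _ _ => ⟨q2.2.1, h2⟩, fun l hl => absurd hl (Nat.not_lt_zero l)⟩,
            hi⟩, h6_le_cons (Raw.Le_refl _) _ _ _ _ _, q2.1, s, 0, _, _, rfl, le_rfl⟩
        · obtain ⟨w1, w2, w3, w4⟩ : (Raw.cons q2' i t m3 f3 v3).Valid F := h2 ▸ q2.2.1
          refine ⟨⟨Raw.cons q2' i (t ++ List.replicate s.length false) m3 f3 v3,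
            ⟨w1, w2, w3, w4⟩, hi⟩, ?_, q2', t ++ List.replicate s.length false, m3, f3, v3,
            rfl, by simp⟩
          show Raw.Le q2.1 _
          rw [h2]
          refine ⟨h6_le_cons (Raw.Le_refl _) _ _ _ _ _, q2', _, m3, f3, v3,
            Or.inl ⟨rfl, rfl, rfl, rfl, rfl, rfl⟩, List.prefix_append _ _,
            fun l hl => ⟨l, hl, rfl, rfl⟩, ?_⟩
          intro n hn1 hn2 hn3
          exfalso
          rw [List.getElem_append_right hn2] at hn3
          simp at hn3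
      have he3 : q3.1.Entry i q3' t m3 f3 v3 := by
        rw [hq3e]
        exact Or.inl ⟨rfl, rfl, rfl, rfl, rfl, rfl⟩
      have hq3m := h6_mem_mcond.1 (RO.mem_lower (hq3.trans hq2) hq1'.2)
      have hst : s <+: t := by
        rw [List.prefix_iff_getElem]
        refine ⟨hlen, fun n hns => ?_⟩
        have h1 := hq3m.1 n hns
        by_cases hs : s[n] = true
        · rw [if_pos hs] at h1
          rw [hs]
          by_contra hcon
          have h2 : t[n] = false := by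
            cases ht : t[n]
            · rfl
            · exact absurd ht.symm hcon
          exact h6_zG_not he3 (hns.trans_le hlen) h2 q3 le_rfl h1
        · rw [if_neg hs] at h1
          by_contra hcon
          have h2 : t[n] = true := by
            cases ht : t[n]
            · exact absurd (by simpa [ht] using hs) hcon
            · rfl
          exact h1 q3 le_rfl (h6_zG_mem he3 (hns.trans_le hlen) h2)
      have hq3r : (resTo h q3).1 = q3' := by
        obtain ⟨w1, w2, w3, w4⟩ : (Raw.cons q3' i t m3 f3 v3).Valid F := hq3e ▸ q3.2.1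
        show q3.1.res i = q3'
        rw [hq3e, Raw.res, if_neg (lt_irrefl i), Raw.h6_res_of_lt w2]
      -- the requirements
      let S : Finset (ℕ × ℕ) := ((Finset.range t.length).filter fun n =>
        s.length ≤ n ∧ ∃ hn : n < t.length, t[n] = true) ×ˢ Finset.range m
      obtain ⟨r', hr', hr2⟩ := h6_fin S (fun nl => {x : Cnd G i | ∃ k,
        v nl.2 nl.1 k = true ∧ x.1 = f nl.2 nl.1 k}) (resTo h q3) (by
          rintro ⟨n, l⟩ hnl
          obtain ⟨hn1, hl⟩ := Finset.mem_product.1 hnl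
          obtain ⟨_, hn2, hn3, hn4⟩ := Finset.mem_filter.1 hn1
          have hl' : l < m := Finset.mem_range.1 hl
          have h1 := hq3m.2 n hn2
          have h2 : q3 ∈ (embR h (y n)ᶜ : RO (Cnd F ℓ)) := by
            rw [(embR_ce h hi.le).map_compl]
            intro x hx hxy
            exact h1 x hx hxy x le_rfl (RO.mem_lower hx (h6_zG_mem he3 hn3 hn4))
          have h3 := (mem_embR h hi.le).1 h2
          have h4 : (y n)ᶜ ≤ (valN (f l, v l) n)ᶜ := compl_le_compl (hy' l hl' n)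
          have h5 := h4 _ h3
          rw [valN, compl_compl] at h5
          exact h5)
      obtain ⟨w1, w2, w3, w4⟩ : (Raw.cons q3' i t m3 f3 v3).Valid F := hq3e ▸ q3.2.1
      have hr'F : r'.1.Valid F := r'.2.1.congr r'.2.2 fun j hj => (h j hj).subset
      have hr3 : Raw.Le q3' r'.1 := by
        have : Raw.Le (resTo h q3).1 r'.1 := hr'
        rw [hq3r] at this
        exact this
      have hr4 : Raw.Le p' r'.1 := by
        have h1 : Raw.Le (resTo h p).1 r'.1 :=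
          (hr'.trans (resTo_mono h hq3)).trans hq2'
        rw [hres] at h1
        exact h1
      let f5 : ℕ → ℕ → ℕ → Raw P₀ I := fun l => if l < m3 then f3 l else f (l - m3)
      let v5 : ℕ → ℕ → ℕ → Bool := fun l => if l < m3 then v3 l else v (l - m3)
      have hf5 : ∀ l, l < m3 → f5 l = f3 l ∧ v5 l = v3 l := fun l hl =>
        ⟨if_pos hl, if_pos hl⟩
      have hf6 : ∀ l, f5 (m3 + l) = f l ∧ v5 (m3 + l) = v l := fun l => by
        have h0 : ¬ m3 + l < m3 := by omega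
        refine ⟨?_, ?_⟩
        · show (if m3 + l < m3 then f3 (m3 + l) else f (m3 + l - m3)) = f l
          rw [if_neg h0, Nat.add_sub_cancel_left]
        · show (if m3 + l < m3 then v3 (m3 + l) else v (m3 + l - m3)) = v l
          rw [if_neg h0, Nat.add_sub_cancel_left]
      let q5 : Cnd F ℓ := ⟨Raw.cons r'.1 i t (m3 + m) f5 v5, ⟨hr'F, r'.2.2, by
          intro l n k
          by_cases hl : l < m3
          · rw [(hf5 l hl).1]
            exact w3 l n k
          · obtain ⟨l', rfl⟩ := Nat.exists_eq_add_of_le (not_lt.1 hl)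
            rw [(hf6 l').1]
            exact hv3 l' n k, by
          intro l hl
          by_cases hl' : l < m3
          · rw [(hf5 l hl').1, (hf5 l hl').2]
            exact w4 l hl'
          · obtain ⟨l', rfl⟩ := Nat.exists_eq_add_of_le (not_lt.1 hl')
            rw [(hf6 l').1, (hf6 l').2]
            exact hv4 l' (by omega)⟩, hi⟩
      have h53 : q5 ≤ q3 := by
        show Raw.Le q3.1 _
        rw [hq3e]
        refine ⟨h6_le_cons hr3 _ _ _ _ _, r'.1, t, m3 + m, f5, v5,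
          Or.inl ⟨rfl, rfl, rfl, rfl, rfl, rfl⟩, List.prefix_rfl, ?_,
          fun n hn1 hn2 => absurd hn1 (not_lt.2 hn2)⟩
        intro l hl
        exact ⟨l, by omega, (hf5 l hl).1, (hf5 l hl).2⟩
      have h5p : q5 ≤ p := by
        show Raw.Le p.1 _
        rw [hpe]
        refine ⟨h6_le_cons hr4 _ _ _ _ _, r'.1, t, m3 + m, f5, v5,
          Or.inl ⟨rfl, rfl, rfl, rfl, rfl, rfl⟩, hst, ?_, ?_⟩
        · intro l hl
          exact ⟨m3 + l, by omega, (hf6 l).1, (hf6 l).2⟩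
        · intro n hn1 hn2 hn3 l hl
          obtain ⟨x, ⟨k, hk, hxk⟩, hrx⟩ := hr2 (n, l) (Finset.mem_product.2
            ⟨Finset.mem_filter.2 ⟨Finset.mem_range.2 hn1, hn2, hn1, hn3⟩, Finset.mem_range.2 hl⟩)
          refine ⟨k, hk, ?_⟩
          have : Raw.Le x.1 r'.1 := hrx
          rw [hxk] at this
          exact this
      exact ⟨q5, (h53.trans hq3).trans hq2, RO.mem_lower h5p hp⟩

end Iter

end Pool.Agent.Helper94.BA
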