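import Pool.Agent.Helper94.BA.Node

/-!
# Restriction, glueing, the embeddings (BA-R1)
-/

set_option autoImplicit false
set_option linter.unusedSectionVars false

namespace Pool.Agent.Helper94.BA

open Pool.Agent.Helper33.HM

universe u v

namespace Raw

variable {P₀ : Type u} {I : Type v} [Preorder P₀] [LinearOrder I]

theorem h6_res_of_lt {p : Raw P₀ I} {i : I} (h : p.lt i) : p.res i = p := by
  cases p with
  | nil a => rfl
  | cons p j s m f v => rw [res, if_pos (show j < i from h)]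

theorem h6_res_res {i j : I} (h : i ≤ j) (p : Raw P₀ I) : (p.res j).res i = p.res i := by
  induction p with
  | nil a => rfl
  | cons p k s m f v ih _ =>
    by_cases hk : k < j
    · rw [res, if_pos hk]
    · rw [res, if_neg hk, ih, res, if_neg (fun hki => hk (lt_of_lt_of_le hki h))]

theorem h6_entry_res {i j : I} (p : Raw P₀ I) (hp : p.WF) {q : Raw P₀ I} {s : List Bool} {m : ℕ}
    {f : ℕ → ℕ → ℕ → Raw P₀ I} {v : ℕ → ℕ → ℕ → Bool} :
    Entry (p.res i) j q s m f v ↔ j < i ∧ Entry p j q s m f v := by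
  induction p with
  | nil a => exact ⟨fun h => h.elim, fun h => h.2.elim⟩
  | cons p k s' m' f' v' ih _ =>
    by_cases hk : k < i
    · rw [res, if_pos hk]
      constructor
      · intro h
        exact ⟨(Entry.facts hp h).2.2.2.2.1 i hk, h⟩
      · intro h
        exact h.2
    · rw [res, if_neg hk, ih hp.1]
      constructor
      · rintro ⟨h1, h2⟩
        exact ⟨h1, Or.inr h2⟩
      · rintro ⟨h1, h2⟩
        rcases h2 with ⟨rfl, _⟩ | h2
        · exact absurd h1 hk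
        · exact ⟨h1, h2⟩

theorem h6_entry_eq_res {i : I} (p : Raw P₀ I) (hp : p.WF) {q : Raw P₀ I} {s : List Bool} {m : ℕ}
    {f : ℕ → ℕ → ℕ → Raw P₀ I} {v : ℕ → ℕ → ℕ → Bool} (h : Entry p i q s m f v) :
    q = p.res i := by
  induction p with
  | nil a => exact h.elim
  | cons p k s' m' f' v' ih _ =>
    rcases h with ⟨rfl, rfl, rfl, rfl, rfl, rfl⟩ | h
    · rw [res, if_neg (lt_irrefl _), h6_res_of_lt hp.2.1]
    · have hik : i < k := (Entry.facts hp.1 h).2.2.2.2.1 k hp.2.1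
      rw [res, if_neg (not_lt.2 hik.le)]
      exact ih hp.1 h

theorem h6_entry_glue {i : I} {q : Raw P₀ I} (hq : q.WF) (hqi : q.lt i) (p : Raw P₀ I)
    (hp : p.WF) {j : I} {p' : Raw P₀ I} {s : List Bool} {m : ℕ} {f : ℕ → ℕ → ℕ → Raw P₀ I}
    {v : ℕ → ℕ → ℕ → Bool} :
    Entry (glue i q p) j p' s m f v ↔
      (j < i ∧ Entry q j p' s m f v) ∨
        (i ≤ j ∧ ∃ p'', Entry p j p'' s m f v ∧ p' = glue i q p'') := by
  induction p with
  | nil a =>
    constructor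
    · intro h
      exact Or.inl ⟨(Entry.facts hq h).2.2.2.2.1 i hqi, h⟩
    · rintro (h | ⟨_, p'', h, _⟩)
      · exact h.2
      · exact h.elim
  | cons p k s' m' f' v' ih _ =>
    by_cases hk : k < i
    · rw [glue, if_pos hk]
      constructor
      · intro h
        exact Or.inl ⟨(Entry.facts hq h).2.2.2.2.1 i hqi, h⟩
      · rintro (h | ⟨h1, p'', h, _⟩)
        · exact h.2
        · exact absurd ((Entry.facts hp h).2.2.2.2.1 i hk) (not_lt.2 h1)
    · rw [glue, if_neg hk]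
      constructor
      · rintro (⟨rfl, rfl, rfl, rfl, rfl, rfl⟩ | h)
        · exact Or.inr ⟨not_lt.1 hk, p, Or.inl ⟨rfl, rfl, rfl, rfl, rfl, rfl⟩, rfl⟩
        · rcases (ih hp.1).1 h with h | ⟨h1, p'', h2, h3⟩
          · exact Or.inl h
          · exact Or.inr ⟨h1, p'', Or.inr h2, h3⟩
      · rintro (h | ⟨h1, p'', h2, h3⟩)
        · exact Or.inr ((ih hp.1).2 (Or.inl h))
        · rcases h2 with ⟨rfl, rfl, rfl, rfl, rfl, rfl⟩ | h2
          · exact Or.inl ⟨rfl, h3, rfl, rfl, rfl, rfl⟩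
          · exact Or.inr ((ih hp.1).2 (Or.inr ⟨h1, p'', h2, h3⟩))

theorem h6_res_glue {i : I} {q : Raw P₀ I} (hqi : q.lt i) (p : Raw P₀ I) :
    (glue i q p).res i = q := by
  induction p with
  | nil a => exact h6_res_of_lt hqi
  | cons p k s m f v ih _ =>
    by_cases hk : k < i
    · rw [glue, if_pos hk, h6_res_of_lt hqi]
    · rw [glue, if_neg hk, res, if_neg hk, ih]

theorem h6_base_glue (i : I) (q p : Raw P₀ I) : (glue i q p).base = q.base := by
  induction p with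
  | nil a => rfl
  | cons p k s m f v ih _ =>
    by_cases hk : k < i
    · rw [glue, if_pos hk]
    · rw [glue, if_neg hk]
      exact ih

/-- Restriction is monotone. -/
theorem h6_le_res_mono {p q : Raw P₀ I} (hp : p.WF) (hq : q.WF) (h : Le p q) (i : I) :
    Le (p.res i) (q.res i) := by
  rw [Le_iff] at h ⊢
  refine ⟨by rw [base_res, base_res]; exact h.1, ?_⟩
  intro j p' s m f v he
  obtain ⟨hji, he'⟩ := (h6_entry_res p hp).1 he
  obtain ⟨q', t, m', g, w, h1, h2⟩ := h.2 j p' s m f v he'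
  exact ⟨q', t, m', g, w, (h6_entry_res q hq).2 ⟨hji, h1⟩, h2⟩

/-- A condition is stronger than its restrictions. -/
theorem h6_le_res {p : Raw P₀ I} (hp : p.WF) (i : I) : Le (p.res i) p := by
  rw [Le_iff]
  refine ⟨by rw [base_res], ?_⟩
  intro j p' s m f v he
  exact ⟨p', s, m, f, v, ((h6_entry_res p hp).1 he).2, List.prefix_rfl,
    fun l hl => ⟨l, hl, rfl, rfl⟩, fun n hn hn' => absurd hn (not_lt.2 hn')⟩

/-- The glued condition is stronger than the upper part. -/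
theorem h6_le_glue {i : I} {q p : Raw P₀ I} (hq : q.WF) (hqi : q.lt i) (hp : p.WF)
    (h : Le (p.res i) q) : Le p (glue i q p) := by
  rw [Le_iff] at h ⊢
  refine ⟨by rw [h6_base_glue]; rw [base_res] at h; exact h.1, ?_⟩
  intro j p' s m f v he
  rcases lt_or_ge j i with hji | hij
  · obtain ⟨q', t, m', g, w, h1, h2⟩ := h.2 j p' s m f v ((h6_entry_res p hp).2 ⟨hji, he⟩)
    exact ⟨q', t, m', g, w, (h6_entry_glue hq hqi p hp).2 (Or.inl ⟨hji, h1⟩), h2⟩
  · exact ⟨glue i q p', s, m, f, v,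
      (h6_entry_glue hq hqi p hp).2 (Or.inr ⟨hij, p', he, rfl⟩), List.prefix_rfl,
      fun l hl => ⟨l, hl, rfl, rfl⟩, fun n hn hn' => absurd hn (not_lt.2 hn')⟩

/-- The glued condition is stronger than the lower part. -/
theorem h6_le_glue_left {i : I} {q p : Raw P₀ I} (hq : q.WF) (hqi : q.lt i) (hp : p.WF) :
    Le q (glue i q p) := by
  rw [Le_iff]
  refine ⟨by rw [h6_base_glue], ?_⟩
  intro j q' s m f v he
  exact ⟨q', s, m, f, v, (h6_entry_glue hq hqi p hp).2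
    (Or.inl ⟨(Entry.facts hq he).2.2.2.2.1 i hqi, he⟩), List.prefix_rfl,
    fun l hl => ⟨l, hl, rfl, rfl⟩, fun n hn hn' => absurd hn (not_lt.2 hn')⟩

/-- Replace the base part. -/
def h6Rebase (a : P₀) : Raw P₀ I → Raw P₀ I
  | .nil _ => .nil a
  | .cons p i s m f v => .cons (h6Rebase a p) i s m f v

theorem h6_base_rebase (a : P₀) (p : Raw P₀ I) : (h6Rebase a p).base = a := by
  induction p with
  | nil b => rfl
  | cons p i s m f v ih _ => exact ih

theorem h6_lt_rebase (a : P₀) (p : Raw P₀ I) {i : I} : (h6Rebase a p).lt i ↔ p.lt i := by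
  cases p with
  | nil b => exact Iff.rfl
  | cons p j s m f v => exact Iff.rfl

theorem h6_valid_rebase (a : P₀) {F : I → Set (Name P₀ I)} {p : Raw P₀ I} (hp : p.Valid F) :
    (h6Rebase a p).Valid F := by
  induction p with
  | nil b => trivial
  | cons p i s m f v ih _ =>
    exact ⟨ih hp.1, (h6_lt_rebase a p).2 hp.2.1, hp.2.2⟩

theorem h6_entry_rebase (a : P₀) {p p' : Raw P₀ I} {i : I} {s : List Bool} {m : ℕ}
    {f : ℕ → ℕ → ℕ → Raw P₀ I} {v : ℕ → ℕ → ℕ → Bool} (h : Entry p i p' s m f v) :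
    Entry (h6Rebase a p) i (h6Rebase a p') s m f v := by
  induction p with
  | nil b => exact h.elim
  | cons p j s' m' f' v' ih _ =>
    rcases h with ⟨rfl, rfl, rfl, rfl, rfl, rfl⟩ | h
    · exact Or.inl ⟨rfl, rfl, rfl, rfl, rfl, rfl⟩
    · exact Or.inr (ih h)

theorem h6_le_rebase (a : P₀) {p : Raw P₀ I} (ha : a ≤ p.base) : Le p (h6Rebase a p) := by
  rw [Le_iff]
  refine ⟨by rw [h6_base_rebase]; exact ha, ?_⟩
  intro j p' s m f v he
  exact ⟨h6Rebase a p', s, m, f, v, h6_entry_rebase a he, List.prefix_rfl,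
    fun l hl => ⟨l, hl, rfl, rfl⟩, fun n hn hn' => absurd hn (not_lt.2 hn')⟩

end Raw

section Proj

variable {P Q : Type u} [Preorder P] [Preorder Q] {π : P → Q}

theorem h6_mem_proj (hm : ∀ p q, p ≤ q → π p ≤ π q)
    (hl : ∀ p q, q ≤ π p → ∃ r, r ≤ p ∧ π r = q) {U : RO Q} {p : P} :
    p ∈ RO.gen {p | π p ∈ U} ↔ π p ∈ U := by
  rw [RO.mem_gen]
  constructor
  · intro h
    refine RO.mem_reg fun q hq => ?_
    obtain ⟨r, hr, rfl⟩ := hl p q hq
    obtain ⟨t, ht, a, ha, hta⟩ := h r hr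
    exact ⟨π t, hm _ _ ht, RO.mem_lower (hm _ _ hta) ha⟩
  · intro h q hq
    exact ⟨q, le_rfl, q, RO.mem_lower (hm _ _ hq) h, le_rfl⟩

theorem h6_ce_proj (hm : ∀ p q, p ≤ q → π p ≤ π q)
    (hl : ∀ p q, q ≤ π p → ∃ r, r ≤ p ∧ π r = q) (hs : ∀ q, ∃ p, π p = q) :
    CE (fun U : RO Q => (RO.gen {p | π p ∈ U} : RO P)) where
  map_sSup t := by
    refine RO.ext' fun p => ?_
    rw [h6_mem_proj hm hl, RO.mem_sSup, RO.mem_sSup]
    constructor
    · intro h q hq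
      obtain ⟨r', hr', U, hU, hrU⟩ := h (π q) (hm _ _ hq)
      obtain ⟨r, hr, rfl⟩ := hl q r' hr'
      exact ⟨r, hr, _, ⟨U, hU, rfl⟩, (h6_mem_proj hm hl).2 hrU⟩
    · intro h q hq
      obtain ⟨r0, hr0, rfl⟩ := hl p q hq
      obtain ⟨r, hr, _, ⟨U, hU, rfl⟩, hrU⟩ := h r0 hr0
      exact ⟨π r, hm _ _ hr, U, hU, (h6_mem_proj hm hl).1 hrU⟩
  map_compl U := by
    refine RO.ext' fun p => ?_
    rw [h6_mem_proj hm hl, RO.mem_compl, RO.mem_compl]
    constructor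
    · intro h q hq hqU
      exact h (π q) (hm _ _ hq) ((h6_mem_proj hm hl).1 hqU)
    · intro h q hq hqU
      obtain ⟨r, hr, rfl⟩ := hl p q hq
      exact h r hr ((h6_mem_proj hm hl).2 hqU)
  inj U h := by
    by_contra hne
    obtain ⟨q, hq⟩ := RO.ne_bot_iff.1 hne
    obtain ⟨p, rfl⟩ := hs q
    have h1 : p ∈ (RO.gen {p | π p ∈ U} : RO P) := (h6_mem_proj hm hl).2 hq
    have h2 : (RO.gen {p | π p ∈ U} : RO P) = ⊥ := h
    rw [h2] at h1
    exact RO.not_mem_bot p h1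

end Proj

section Iter

variable {P₀ I : Type u} [Preorder P₀] [LinearOrder I]
variable {F G : I → Set (Name P₀ I)} {i ℓ : I}

theorem resTo_mono (h : Agr G F i) {p q : Cnd F ℓ} (hpq : p ≤ q) : resTo h p ≤ resTo h q :=
  Raw.h6_le_res_mono q.2.1.wf p.2.1.wf hpq i

theorem incTo_mono (h : Agr G F i) (hi : i ≤ ℓ) {p q : Cnd G i} :
    incTo h hi p ≤ incTo h hi q ↔ p ≤ q := Iff.rfl

theorem resTo_incTo (h : Agr G F i) (hi : i ≤ ℓ) (p : Cnd G i) : resTo h (incTo h hi p) = p :=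
  Subtype.ext (Raw.h6_res_of_lt p.2.2)

theorem le_incTo_resTo (h : Agr G F i) (hi : i ≤ ℓ) (p : Cnd F ℓ) :
    p ≤ incTo h hi (resTo h p) := Raw.h6_le_res p.2.1.wf i

/-- Glueing. -/
theorem exists_glue (h : Agr G F i) (hi : i ≤ ℓ) (p : Cnd F ℓ) (q : Cnd G i)
    (hq : q ≤ resTo h p) : ∃ r : Cnd F ℓ, r ≤ p ∧ resTo h r = q := by
  have hqF : q.1.Valid F := q.2.1.congr q.2.2 fun j hj => (h j hj).subset
  have hg := Raw.glue_facts i q.1 p.1 hqF q.2.2 p.2.1
  exact ⟨⟨Raw.glue i q.1 p.1, hg.1, hg.2 ℓ hi p.2.2⟩,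
    Raw.h6_le_glue hqF.wf q.2.2 p.2.1.wf hq, Subtype.ext (Raw.h6_res_glue q.2.2 p.1)⟩

theorem resTo_resTo {H : I → Set (Name P₀ I)} {j : I} (h₁ : Agr H G j) (h₂ : Agr G F i)
    (h₃ : Agr H F j) (hj : j ≤ i) (p : Cnd F ℓ) : resTo h₁ (resTo h₂ p) = resTo h₃ p :=
  Subtype.ext (Raw.h6_res_res hj p.1)

theorem resTo_self (h : Agr G F ℓ) (p : Cnd F ℓ) : (resTo h p).1 = p.1 :=
  Raw.h6_res_of_lt p.2.2

theorem base_mono {p q : Cnd F ℓ} (hpq : p ≤ q) : p.1.base ≤ q.1.base := (Raw.Le_iff.1 hpq).1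

/-- The base part can be strengthened freely. -/
theorem exists_base (p : Cnd F ℓ) (a : P₀) (ha : a ≤ p.1.base) :
    ∃ r : Cnd F ℓ, r ≤ p ∧ r.1.base = a :=
  ⟨⟨Raw.h6Rebase a p.1, Raw.h6_valid_rebase a p.2.1, (Raw.h6_lt_rebase a p.1).2 p.2.2⟩,
    Raw.h6_le_rebase a ha, Raw.h6_base_rebase a p.1⟩

theorem mem_embR (h : Agr G F i) (hi : i ≤ ℓ) {U : RO (Cnd G i)} {p : Cnd F ℓ} :
    p ∈ embR h U ↔ resTo h p ∈ U :=
  h6_mem_proj (fun _ _ hpq => resTo_mono h hpq) (fun p q hq => exists_glue h hi p q hq)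

theorem embR_ce (h : Agr G F i) (hi : i ≤ ℓ) :
    CE (embR h : RO (Cnd G i) → RO (Cnd F ℓ)) :=
  h6_ce_proj (fun _ _ hpq => resTo_mono h hpq) (fun p q hq => exists_glue h hi p q hq)
    (fun q => ⟨incTo h hi q, resTo_incTo h hi q⟩)

theorem mem_baseE {U : RO P₀} {p : Cnd F ℓ} : p ∈ (baseE U : RO (Cnd F ℓ)) ↔ p.1.base ∈ U :=
  h6_mem_proj (π := fun p : Cnd F ℓ => p.1.base) (fun _ _ hpq => base_mono hpq)
    (fun p q hq => exists_base p q hq)

theorem baseE_ce : CE (baseE : RO P₀ → RO (Cnd F ℓ)) :=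
  h6_ce_proj (π := fun p : Cnd F ℓ => p.1.base) (fun _ _ hpq => base_mono hpq)
    (fun p q hq => exists_base p q hq)
    (fun a => ⟨⟨Raw.nil a, trivial, trivial⟩, rfl⟩)

theorem embR_baseE (h : Agr G F i) (hi : i ≤ ℓ) (U : RO P₀) :
    (embR h (baseE U) : RO (Cnd F ℓ)) = baseE U := by
  refine RO.ext' fun p => ?_
  rw [mem_embR h hi, mem_baseE, mem_baseE]
  show (p.1.res i).base ∈ U ↔ _
  rw [Raw.base_res]

theorem embR_embR {H : I → Set (Name P₀ I)} {j : I} (h₁ : Agr H G j) (h₂ : Agr G F i)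
    (h₃ : Agr H F j) (hj : j ≤ i) (hi : i ≤ ℓ) (U : RO (Cnd H j)) :
    (embR h₂ (embR h₁ U) : RO (Cnd F ℓ)) = embR h₃ U := by
  refine RO.ext' fun p => ?_
  rw [mem_embR h₂ hi, mem_embR h₁ hj, mem_embR h₃ (hj.trans hi), resTo_resTo h₁ h₂ h₃ hj]

end Iter

end Pool.Agent.Helper94.BA
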